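import Pool.Agent.N856.JL.Res

/-!
# The rank conjecture over totally real multiquadratic fields: exact natural densities

`E_m` is the quadratic twist by `m` of the modular curve `X_0(15)`, a semistable curve without complex
multiplication, with the equation `y² = x³ - 12987 m² x - 263466 m³`. We consider

* the totally real multiquadratic fields `F` of any degree `2 ^ r` in which `2` is unramified and `3` and `5`
  split completely: `F = ℚ(√d_1, …, √d_r)` with squarefree `d_i > 0`, `d_i ≡ 1 mod 12`, `d_i ≡ ± 1 mod 5`;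
* all the squarefree numbers `n ≡ 23, 47 mod 60` prime to the `d_i`, and the curves `E_{-n}` over `F`.

Call `E_{-n}` good over `F` if the `2 ^ r` curves over `ℚ` which become isomorphic to `E_{-n}` over `F` have
finitely many rational points and no element of order two in the Tate-Shafarevich group; this means that
the `2 ^ r` imaginary quadratic fields `ℚ(√(- n d_T))` have no ideal class of order four.

(1) If `E_{-n}` is good over `F`, then `E_{-n}(F)` is finite, `L(E_{-n}/F, s)` extends to an entire function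
whose order at `s = 1` is the rank of `E_{-n}(F)`, both being zero, and the 2-primary part of
`Ш(E_{-n}/F)` is finite, killed by `2 ^ r`.
(2) *Fixed field, varying curve.* For every `F` the natural density of the `n` with `E_{-n}` good over `F` is
exactly `η ^ [F : ℚ]`, `η = (1 - 1/2) (1 - 1/4) (1 - 1/8) ⋯ = 0.2888…`.
(3) *Fixed curve, varying field.* For every `F` and every `n` with `E_{-n}` good over `F`, the natural density
of the squarefree `D` with `E_{-n}` good over `F(√D)` is exactly `η ^ [F : ℚ]`; for instance the rank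
conjecture holds for `E_{-23}` over `ℚ(√D)` for exactly 28.88… percent of the `D ≡ 1, 49 mod 60`
prime to `23`, in the sense that `E_{-23}` is good over these fields.
(4) *Towers.* For every `F` and every `n` with `E_{-n}` good over `F` there are infinitely many
primes `q_1 < q_2 < ⋯` such that `E_{-n}` is good over all the fields `F(√q_1, …, √q_k)`.

The proof: over `ℚ` this is the theorem of helpers 969, 875 and others (the file `TwistsX15` of problem
`MP_696deb_nt` and `Pool/Agent/N969/P15`): the value `L(E_{-n}, 1)` is up to known factors the square of the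
sum of Gross, which is not divisible by the next power of two exactly if `ℚ(√-n)` has no class of order
four. New here: the joint law `Pool.Agent.N856.JL.t_DensJ` (for different fixed `c_1, …, c_k` and a random
`n` the conditions on the class groups of the fields `ℚ(√(-c_i n))` are independent: natural density
`η ^ k`; parts by helpers 588, 763, 789, 814, after projects GB of helper916 and QJ of helper426), the
towers, and the passage to the fields.
-/

set_option autoImplicit false

open NumberField IsDedekindDomain Filter Topology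

namespace Pool.Agent.Results.MP_cd906c_nt.ExactDensityTotallyReal

/-- the coefficient `a` of the equation `y² = x³ + a x + b` of the twist by `m` of `X_0(15)` -/
def A (m : ℤ) : ℤ := -12987 * m ^ 2

/-- the coefficient `b` of the equation `y² = x³ + a x + b` of the twist by `m` of `X_0(15)` -/
def B (m : ℤ) : ℤ := -263466 * m ^ 3

/-- the twist `E_m` by `m` of `X_0(15)`, over the field `K` -/
def E (K : Type) [Field K] (m : ℤ) : WeierstrassCurve K :=
  { a₁ := 0, a₂ := 0, a₃ := 0, a₄ := (A m : K), a₆ := (B m : K) }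

/-- `E_m(ℚ)` is finite and `Ш(E_m/ℚ)` has no element of order two -/
def RankZeroShaTwo (m : ℤ) : Prop :=
  Finite (E ℚ m).toAffine.Point ∧ ∀ x : Pool.Agent.TH841.NF.D.Sha (E ℚ m), 2 • x = 0 → x = 0

/-- the imaginary quadratic field `ℚ(√-N)` has no ideal class of order four -/
def NoOrderFour (N : ℕ) : Prop :=
  ∀ (K : Type) [Field K] [NumberField K], Module.finrank ℚ K = 2 → (∃ s : K, s ^ 2 = -(N : K)) →
    ∀ c : ClassGroup (𝓞 K), c ^ 4 = 1 → c ^ 2 = 1

/-- the numbers `n` of the curves `E_{-n}` -/
def Twist (n : ℕ) : Prop := Squarefree n ∧ (n % 60 = 23 ∨ n % 60 = 47)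

/-- the numbers `d` of the real quadratic fields `ℚ(√d)`, in which `2` is unramified and `3` and `5`
split -/
def Disc (d : ℕ) : Prop := Squarefree d ∧ d % 12 = 1 ∧ (d % 5 = 1 ∨ d % 5 = 4)

/-- `ℚ(√d_1, …, √d_r)` has degree `2 ^ r` -/
def Independent {r : ℕ} (d : Fin r → ℕ) : Prop :=
  ∀ T : Finset (Fin r), T.Nonempty → ¬ IsSquare (∏ i ∈ T, d i)

/-- `K = ℚ(√d_1, …, √d_r)` -/
def IsMultiquadratic {r : ℕ} (d : Fin r → ℕ) (K : Type) [Field K] [NumberField K] : Prop :=
  ∃ x : Fin r → K, (∀ i, x i ^ 2 = (d i : K)) ∧ IntermediateField.adjoin ℚ (Set.range x) = ⊤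

/-- the fields `ℚ(√d_1, …, √d_r)` of degree `2 ^ r` of the family, and the numbers `n` of the family prime
to the `d_i` -/
def Setting {r : ℕ} (d : Fin r → ℕ) (n : ℕ) : Prop :=
  (∀ i, Disc (d i)) ∧ Independent d ∧ Twist n ∧ ∀ i, n.Coprime (d i)

/-- `E_{-n}` is good over `F = ℚ(√d_1, …, √d_r)`: the curves `E_{- n ∏_{i ∈ T} d_i}` over `ℚ`, which are
the factors of the Weil restriction of `E_{-n}` from `F` to `ℚ`, have finitely many rational points and
no element of order two in the Tate-Shafarevich group -/
def Good {r : ℕ} (d : Fin r → ℕ) (n : ℕ) : Prop :=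
  ∀ T : Finset (Fin r), RankZeroShaTwo (-(n : ℤ) * ∏ i ∈ T, (d i : ℤ))

/-- the number `q_v` of elements of the residue field of a finite place `v` of `K` -/
noncomputable def qv (K : Type) [Field K] (v : HeightOneSpectrum (𝓞 K)) : ℕ :=
  Nat.card (𝓞 K ⧸ v.asIdeal)

/-- `a_v = q_v + 1 - #E(k_v)` for `E : y² = x³ + a x + b`, that is `q_v` minus the number of affine
points over the residue field -/
noncomputable def av (K : Type) [Field K] (a b : ℤ) (v : HeightOneSpectrum (𝓞 K)) : ℤ :=
  (qv K v : ℤ) - Nat.card {z : (𝓞 K ⧸ v.asIdeal) × (𝓞 K ⧸ v.asIdeal) //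
    z.2 ^ 2 = z.1 ^ 3 + (a : 𝓞 K ⧸ v.asIdeal) * z.1 + (b : 𝓞 K ⧸ v.asIdeal)}

open Classical in
/-- `F` is entire and is, for `Re s > 3/2`, the `L`-function of `E_m` over `K` without the Euler factors
at the places dividing `30 m D` -/
def IsL (K : Type) [Field K] (m D : ℤ) (F : ℂ → ℂ) : Prop :=
  Differentiable ℂ F ∧ ∀ s : ℂ, (3 : ℝ) / 2 < s.re →
    HasProd (fun v : HeightOneSpectrum (𝓞 K) =>
      if ((30 * m * D : ℤ) : 𝓞 K) ∈ v.asIdeal then 1 else
        (1 - (av K (A m) (B m) v : ℂ) * (qv K v : ℂ) ^ (-s) + (qv K v : ℂ) ^ (1 - 2 * s))⁻¹) (F s)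

open Classical in
/-- the rank conjecture for `E_m` over `K` with the rank and the order zero, and the finiteness of the
2-primary part of `Ш(E_m/K)`, which is killed by `2 ^ r`; the `L`-function is without the Euler factors
at the places dividing `30 m D` -/
def BSDZero (K : Type) [Field K] [NumberField K] (m D : ℤ) (r : ℕ) : Prop :=
  Finite (E K m).toAffine.Point ∧
  (∃ F : ℂ → ℂ, IsL K m D F) ∧
  (∀ F : ℂ → ℂ, IsL K m D F →
    analyticOrderAt F 1 = (Module.finrank ℤ (E K m).toAffine.Point : ℕ∞)) ∧
  Module.finrank ℤ (E K m).toAffine.Point = 0 ∧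
  {y : Pool.Agent.TH841.NF.D.Sha (E K m) | ∃ j : ℕ, (2 ^ j : ℕ) • y = 0}.Finite ∧
  ∀ (j : ℕ) (y : Pool.Agent.TH841.NF.D.Sha (E K m)), (2 ^ j : ℕ) • y = 0 → (2 ^ r : ℕ) • y = 0

/-- the limit `(1 - 1/2) (1 - 1/4) (1 - 1/8) ⋯` -/
noncomputable def eta : ℝ := ∏' i : ℕ, (1 - (1 / 2 : ℝ) ^ (i + 1))

open Classical in
/-- the number of the `m ≤ X` with the property `P` -/
noncomputable def count (P : ℕ → Prop) (X : ℕ) : ℕ := ((Finset.Icc 1 X).filter fun m => P m).card

/-- among the numbers with the property `P`, those with the property `Q` have natural density `δ` -/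
def HasDensity (P Q : ℕ → Prop) (δ : ℝ) : Prop :=
  Tendsto (fun X : ℕ => (count (fun m => P m ∧ Q m) X : ℝ) / (count P X : ℝ)) atTop (𝓝 δ)

/-- **The rank conjecture for the twists of `X_0(15)` over totally real multiquadratic fields: exact
natural densities.** -/
theorem result :
    -- good curves: the class groups, and the rank conjecture
    (∀ (r : ℕ) (d : Fin r → ℕ) (n : ℕ), Setting d n →
      (Good d n ↔ ∀ T : Finset (Fin r), NoOrderFour (n * ∏ i ∈ T, d i)) ∧
      (Good d n → ∀ (K : Type) [Field K] [NumberField K], IsMultiquadratic d K →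
        Module.finrank ℚ K = 2 ^ r ∧ BSDZero K (-(n : ℤ)) (∏ i, (d i : ℤ)) r)) ∧
    -- fixed field, varying curve
    (∀ (r : ℕ) (d : Fin r → ℕ), (∀ i, Disc (d i)) → Independent d →
      HasDensity (fun n => Twist n ∧ ∀ i, n.Coprime (d i)) (Good d) (eta ^ 2 ^ r)) ∧
    -- fixed curve, varying field
    (∀ (r : ℕ) (d : Fin r → ℕ) (n : ℕ), Setting d n → Good d n →
      HasDensity (fun D => Disc D ∧ D.Coprime n ∧ ∀ i, D.Coprime (d i))
        (fun D => Good (Fin.snoc d D : Fin (r + 1) → ℕ) n) (eta ^ 2 ^ r) ∧
      ∀ D : ℕ, 1 < D → Disc D → D.Coprime n → (∀ i, D.Coprime (d i)) →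
        Setting (Fin.snoc d D : Fin (r + 1) → ℕ) n) ∧
    -- towers
    (∀ (r : ℕ) (d : Fin r → ℕ) (n : ℕ), Setting d n → Good d n →
      ∃ q : ℕ → ℕ, StrictMono q ∧ (∀ j, (q j).Prime ∧ q j % 60 = 1) ∧
        ∀ k, Setting (Fin.append d fun i : Fin k => q i) n ∧
          Good (Fin.append d fun i : Fin k => q i) n) ∧
    0.2887 < eta ∧ eta < 0.2889 :=
  Pool.Agent.N856.JL.Res.main

end Pool.Agent.Results.MP_cd906c_nt.ExactDensityTotallyReal
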