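import Pool.Agent.Results.MP_cd906c_nt.MultiquadraticX49
import Pool.Agent.N869.QP.Fin

/-!
# The rank conjecture of Birch and Swinnerton-Dyer for pairs of a curve and a field

Let `K = ℚ(√-7)` and let `E_D` be the quadratic twist by `D` of the curve
`y² + x y = x³ - x² - 2 x - 1` of conductor `49`. Here both the curve `E_D` and the field
`L = K(√d_1, …, √d_n)` vary, `n ≥ 1`: we consider all the pairs `(D, d)`, where `D, d_1, …, d_n` are
squarefree integers of `K` congruent to `1` modulo `4` and prime to `√-7`, the `d_i` are independent modulo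
squares, and `D` is prime to the `d_i`. The pairs are ordered by the norm of the product of the prime
ideals that divide `D` or some `d_i`.

* The proportion of the pairs for which all the `2 ^ n` twists over `K` by `D ∏_{i ∈ T} d_i` have finitely
  many points over `K` and no element of order two in the Tate-Shafarevich group is exactly
  `c2 ^ (2 ^ n)`, where `c2 = ∏_{i ≥ 1} (1 - 2^(-i)) = 0.288...`. More generally the conditions for a set
  `𝒯` of subsets `T` of `{1, …, n}` hold for a proportion of exactly `c2 ^ #𝒯` of the pairs.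
* For all these pairs the group `E_D(L)` is finite, the rank conjecture holds for `E_D` over `L`, a
  product of `L(E_D/L, s)` and finitely many Euler polynomials is entire and not zero at `1`, and the
  2-primary part of `Ш(E_D/L)` is finite and killed by `2 ^ n`.
* There are at least `c X (log X) ^ (2 ^ n - 1)` pairs of total conductor at most `X`.

In `MultiquadraticX49` the field is fixed, and the conductors of the curves are ordered by the norm. Here
almost all the pairs have a conductor with about `2 ^ n log log X` prime factors, a set of ideals of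
density zero, and a field whose conductor is not bounded in terms of that of the curve or
conversely.

Proof. `MultiquadraticX49` reduces the statement on `L` to the twists over `K`, and
`MP_e996df_nt/TwoPartTwistsX49` reduces these to the kernels of matrices of quadratic symbols. A pair of
total conductor `𝔣` is a colouring of the prime divisors of `𝔣` by the subsets of `{1, …, n}`. So the
average is over the ideals `𝔣` with the weight `(2 ^ n) ^ ω(𝔣)` and a random colouring; for a
fixed random colouring of all primes of `K` and a fixed number of prime divisors, the joint moments of the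
kernels of the matrices are computed by the large sieve for the quadratic symbols over `K` in boxes of
large primes and an exact count of the labellings (`Pool/Agent/N869/QA`, `Pool/Agent/N869/QP`).
-/

set_option autoImplicit false

namespace Pool.Agent.Results.MP_cd906c_nt.PairsCurveField

open NumberField IsDedekindDomain
open Pool.Agent.Results.MP_cd906c_nt.MultiquadraticX49 (curve InClass NoSelmer AllNoSelmer
  OverExtensions Independent c2)

/-- The conductors of norm at most `X`: the squarefree ideals of `𝓞 K` prime to `14`. -/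
def conductors (K : Type) [Field K] [NumberField K] (X : ℕ) : Set (Ideal (𝓞 K)) :=
  {𝔣 | Squarefree 𝔣 ∧ IsCoprime 𝔣 (Ideal.span {14}) ∧ Ideal.absNorm 𝔣 ≤ X}

/-- The pairs `(D, d)` of total conductor at most `X`: `D` and the `d i` are squarefree, congruent to
`1` modulo `4` and prime to `√-7`, no nonempty product of some of the `d i` is a square in `K`, `D` is
prime to the `d i`, and for an ideal `𝔣` in `conductors K X` a prime ideal divides `𝔣` if and only if
it divides `D` or some `d i`. -/
def pairs {K : Type} [Field K] [NumberField K] (a : 𝓞 K) (n X : ℕ) : Set (𝓞 K × (Fin n → 𝓞 K)) :=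
  {x | InClass a x.1 ∧ (∀ i, InClass a (x.2 i)) ∧ Independent x.2 ∧
    (∀ i, IsCoprime x.1 (x.2 i)) ∧
    ∃ 𝔣 ∈ conductors K X, ∀ v : HeightOneSpectrum (𝓞 K),
      𝔣 ≤ v.asIdeal ↔ x.1 ∈ v.asIdeal ∨ ∃ i, x.2 i ∈ v.asIdeal}

/-- `NoSelmer` (that is, `E_N(K)` is finite and `Ш(E_N/K)` has no element of order two) for the twists by
the products of `D` and the `d i`, `i ∈ T`, for the sets `T` in `𝒯`. -/
def Good {K : Type} [Field K] [NumberField K] (a : 𝓞 K) {n : ℕ} (𝒯 : Finset (Finset (Fin n)))
    (x : 𝓞 K × (Fin n → 𝓞 K)) : Prop :=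
  ∀ T ∈ 𝒯, ∀ N c : 𝓞 K, InClass a N → c ≠ 0 → x.1 * ∏ i ∈ T, x.2 i = N * c ^ 2 →
    NoSelmer (curve (N : K))

section proof

open Filter
open Pool.Agent.N869

variable {K : Type} [Field K] [NumberField K]

lemma good_iff {a : 𝓞 K} (ha : a ^ 2 = a - 2) (hK : Module.finrank ℚ K = 2) {n : ℕ}
    (𝒯 : Finset (Finset (Fin n))) (x : 𝓞 K × (Fin n → 𝓞 K)) :
    Good a 𝒯 x ↔ QP.TRKP.goPK a 𝒯 x :=
  forall_congr' fun _ => forall_congr' fun _ => forall_congr' fun _ => forall_congr' fun _ =>
    forall_congr' fun hN => forall_congr' fun _ => forall_congr' fun _ =>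
      (MP_cd906c_nt.MultiquadraticX49.twoPart_iff ha hK hN).symm

lemma pairs_eq (a : 𝓞 K) (n X : ℕ) : pairs a n X = QP.TRKP.famP a n X := by
  ext x
  constructor
  · rintro ⟨h1, h2, h3, h4, 𝔣, h5, h6⟩
    exact ⟨𝔣, h5, h1, h2, h3, h4, h6⟩
  · rintro ⟨𝔣, h5, h1, h2, h3, h4, h6⟩
    exact ⟨h1, h2, h3, h4, 𝔣, h5, h6⟩

end proof

/-- **Main theorem.** Let `K = ℚ(√-7)`, that is, a number field of degree two with an integer `a` such
that `a² = a - 2`, and let `n ≥ 1`. There are finitely many pairs of total conductor at most `X`, and at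
least `c X (log X) ^ (2 ^ n - 1)` for large `X`.
(1) If a pair `(D, d)` is good for all the subsets of `{1, …, n}` (a condition on the side of
algebra only, on the twists over `K`), then for `L = K(√d_1, …, √d_n)`, of degree `2 ^ n` over `K`:
the group `E_D(L)` is finite, the rank conjecture holds for `E_D` over `L`, a product of `L(E_D/L, s)`
and finitely many Euler polynomials is entire and not zero at `1`, and the 2-primary part of
`Ш(E_D/L)` is finite and killed by `2 ^ n`.
(2) For every set `𝒯` of subsets of `{1, …, n}`, the proportion of the pairs of total conductor at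
most `X` that are good for `𝒯` tends to `c2 ^ #𝒯`, where `0.288 < c2 < 0.289`. In particular this holds
with the exponent `2 ^ n` for the condition in (1). -/
theorem result (K : Type) [Field K] [NumberField K] (a : 𝓞 K) (ha : a ^ 2 = a - 2)
    (hK : Module.finrank ℚ K = 2) (n : ℕ) (hn : 1 ≤ n) :
    (∀ X : ℕ, (pairs a n X).Finite ∧ ∀ x ∈ pairs a n X,
      Good a Finset.univ x → OverExtensions x.2 x.1) ∧
    (∃ c : ℝ, 0 < c ∧ ∀ᶠ X : ℕ in Filter.atTop,
      c * (X * (Real.log X) ^ (2 ^ n - 1)) ≤ ((pairs a n X).ncard : ℝ)) ∧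
    (∀ 𝒯 : Finset (Finset (Fin n)),
      Filter.Tendsto (fun X : ℕ => ({x ∈ pairs a n X | Good a 𝒯 x}.ncard : ℝ) /
        ((pairs a n X).ncard : ℝ)) Filter.atTop (nhds (c2 ^ 𝒯.card))) ∧
    (Finset.univ : Finset (Finset (Fin n))).card = 2 ^ n ∧
    0.288 < c2 ∧ c2 < 0.289 := by
  obtain ⟨-, -, -, h3, h4⟩ := Pool.Agent.R426.QK.MOM.t_C2
  have h0 := Pool.Agent.N869.QP.TRKP.mainA Pool.Agent.N869.QP.t_FINPA ha hK hn ∅
  refine ⟨fun X => ⟨?_, fun x hx hg => ?_⟩, ?_, fun 𝒯 => ?_, ?_, h3, h4⟩
  · rw [pairs_eq]
    exact h0.1 X
  · obtain ⟨h5, h6, h7, h8, -⟩ := hx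
    exact MP_cd906c_nt.MultiquadraticX49.extension ha hK x.2 h6 h7 h5 h8
      fun T N c hN hc hT => hg T (Finset.mem_univ _) N c hN hc hT
  · simp only [pairs_eq]
    exact h0.2.1
  · simp only [pairs_eq, good_iff ha hK]
    exact (Pool.Agent.N869.QP.TRKP.mainA Pool.Agent.N869.QP.t_FINPA ha hK hn 𝒯).2.2
  · rw [Finset.card_univ, Fintype.card_finset, Fintype.card_fin]

end Pool.Agent.Results.MP_cd906c_nt.PairsCurveField
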