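import Pool.Agent.N869.GK.Z.F17S
import Pool.Agent.N869.GK.Z.Pat

/-!
# Pairs of a twist of the curve of conductor 17 and a multiquadratic field, of a fixed total conductor

`E_m` is the quadratic twist by `m` of the curve `E : y² = x (x + 1) (x - 16)` of conductor `17`, without
complex multiplication. Fix any finite set of squarefree integers `c_1, …, c_m` such that the `E_{c_i}` have
root number `+1`, and `n ≥ 1`. For a squarefree number `f` prime to `34 c_1 ⋯ c_m` we consider all the pairs of a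
number `t` and a totally real field `F = ℚ(√d_1, …, √d_n)` with `t, d_1, …, d_n` independent modulo squares,
divisors of `f` in the principal class (squares in `ℚ_p` for the `p` dividing `34 c_1 ⋯ c_m`), whose prime
divisors together are the prime divisors of `f`; both the curves `E_{c_i t}` and the field vary.

* For ALMOST EVERY SINGLE `f` (natural density one), and not only on the average over `f`, the proportion
  of the pairs for which ALL the curves `E_{c_1 t}, …, E_{c_m t}` are good over `F` is as close as we like to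
  `κ ^ (m 2 ^ n)`, `κ = ∏_{i ≥ 0} (1 - 2 ^ (-2 i - 1)) = 0.4194…`. Good means: the `2 ^ n` curves over `ℚ` that
  become isomorphic to `E_{c_i t}` over `F` have finitely many rational points and no element of order two in
  the Tate-Shafarevich group.
* Therefore the proportion of the pairs for which AT LEAST ONE of the curves `E_{c_1 t}, …, E_{c_m t}` is good over
  `F` is as close as we like to `1 - (1 - κ ^ 2 ^ n) ^ m`, which tends to `1` for `m → ∞`.
* (joint law, law of large numbers inside the pairs) The set of the `M = m 2 ^ n` pairs `(i, T)`, `T` a subset of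
  `{1, …, n}`, for which `E_{c_i t d_T}`, `d_T = ∏_{j ∈ T} d_j`, has finitely many rational points and no element of
  order two in `Ш` is distributed like a random set which contains each pair with the probability `κ`,
  independently; so for nearly all the `(t, F)` this is true for nearly `41.9` percent of the `M` factors of the
  Weil restrictions of the `E_{c_i t}` from `F` to `ℚ`.
* For all the good pairs `E_{c_i t}(F)` is finite, `L(E_{c_i t}/F, s)` extends to an entire function that does
  not vanish at `s = 1`, and the 2-primary part of `Ш(E_{c_i t}/F)` is finite and killed by `2 ^ n`.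

The last point is `MP_1a91b9_nt/MultiquadraticX17` (helper809 and others). The law for fixed curves `E_{c_i}`
and varying fields is a different theorem (there the case of the trivial character is a hypothesis).

Proof. The descent over `ℚ` for several general curves with full 2-torsion without a cyclic 4-isogeny, with
the local conditions at the bad places as maximal isotropic subspaces; the parity of the 2-Selmer rank of
all the twists of `E` (helper755); first and second moments over random colourings of the primes dividing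
`f`; boxes of large primes, the large sieve for quadratic symbols, all the moments of the numbers of the
solutions for all the systems at once, an inversion of moments with given parity (`Pool/Agent/N869/GK`;
parts by helpers 3, 7, 9, 19, 27, 42, 49, 55, 67, 91, 128, 163, 170,
195, 199, 221, 247, 263, 265, 271, 273, 286, 300, 306, 314, 340, 342, 344, 364, 372, 383, 386, 391, 395,
401, 413, 434, 454, 475, 478, 488, 495, 514, 527, 558, 572, 588, 592, 595, 603, 617, 655, 661, 690, 693,
700, 701, 713, 723, 755, 803, 814, 833, 835, 853, 869, 891, 901, 933, 954).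
-/

set_option autoImplicit false

namespace Pool.Agent.Results.MP_cd906c_nt.PairsX17

open Pool.Agent.Results.MP_1a91b9_nt.MultiquadraticX17 (RankZeroShaTwo Good IsMultiquadratic BSDZero)
open Pool.Agent.Results.MP_696deb_nt.Conductor17 (RootPlus)
open Pool.Agent.N869.GK.Z (Independent AlmostAll kappa)

/-- The squarefree numbers prime to `34 c_1 ⋯ c_m`. -/
def Conductor {m : ℕ} (c : Fin m → ℤ) (f : ℕ) : Prop :=
  Squarefree f ∧ f.Coprime (34 * ∏ i, (c i).natAbs)

/-- `d ≡ 1` modulo `8`, and `d` is a square modulo `17` and modulo the odd primes which divide some `c_i`. -/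
def Principal {m : ℕ} (c : Fin m → ℤ) (d : ℕ) : Prop :=
  d % 8 = 1 ∧ ∀ p : ℕ, p.Prime → p ≠ 2 → p ∣ 17 * ∏ i, (c i).natAbs → IsSquare (d : ZMod p)

/-- The pairs of total conductor `f`: `x = (t, d_1, …, d_n)`, the `x_i` divide `f`, and every prime divisor of `f`
divides one of them. -/
def pairs {m : ℕ} (c : Fin m → ℤ) (n f : ℕ) : Set (Fin (n + 1) → ℕ) :=
  {x | (∀ i, x i ∣ f ∧ Principal c (x i)) ∧ Independent x ∧ ∀ p : ℕ, p.Prime → p ∣ f → ∃ i, p ∣ x i}

/-- There are pairs of total conductor `f`, finitely many, and the proportion of those with the property `P`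
differs from `q` by at most `δ`. -/
def Close {m : ℕ} (c : Fin m → ℤ) {n : ℕ} (P : (Fin (n + 1) → ℕ) → Prop) (q δ : ℝ) (f : ℕ) : Prop :=
  (pairs c n f).Finite ∧ 0 < (pairs c n f).ncard ∧
    |({x ∈ pairs c n f | P x}.ncard : ℝ) / ((pairs c n f).ncard : ℝ) - q| ≤ δ

/-- There are pairs of total conductor `f`, finitely many, and the proportion of those with the property `P` is
at least `q - δ`. -/
def AtLeast {m : ℕ} (c : Fin m → ℤ) {n : ℕ} (P : (Fin (n + 1) → ℕ) → Prop) (q δ : ℝ) (f : ℕ) : Prop :=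
  (pairs c n f).Finite ∧ 0 < (pairs c n f).ncard ∧
    q - δ ≤ ({x ∈ pairs c n f | P x}.ncard : ℝ) / ((pairs c n f).ncard : ℝ)

open Classical in
/-- the set of the pairs `(i, T)` for which `E_{c_i t d_T}` has finitely many rational points and no element of
order two in `Ш`, `t = x_0`, `d_T = ∏_{j ∈ T} x_j` -/
noncomputable def goods {m : ℕ} (c : Fin m → ℤ) {n : ℕ} (x : Fin (n + 1) → ℕ) :
    Finset (Fin m × Finset (Fin n)) :=
  Finset.univ.filter fun a => RankZeroShaTwo (c a.1 * x 0 * ∏ j ∈ a.2, (x j.succ : ℤ))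

section proof

open Pool.Agent.N869.GK

lemma cond_eq {m : ℕ} (c : Fin m → ℤ) : Conductor c = Z.Conductor (Z.C17.NN c) := by
  funext f
  unfold Conductor Z.Conductor Z.C17.NN
  have e1 : 34 * ∏ i, (c i).natAbs = 2 * (17 * ∏ i, (c i).natAbs) := by ring
  rw [e1]

lemma pairs_eq {m : ℕ} (c : Fin m → ℤ) (n f : ℕ) :
    pairs c n f = Z.fam (Z.C17.NN c) true (n + 1) f := by
  ext d
  constructor
  · rintro ⟨h1, h2, h3⟩
    exact ⟨h1, h2, fun _ => h3⟩
  · rintro ⟨h1, h2, h3⟩
    exact ⟨h1, h2, h3 rfl⟩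

lemma indep {n : ℕ} {x : Fin (n + 1) → ℕ} (h : Independent x) :
    Pool.Agent.Results.MP_1a91b9_nt.MultiquadraticX17.Independent
      (fun j : Fin n => (x j.succ : ℤ)) := by
  intro T hT h3
  have h6 := h (T.map (Fin.succEmb n)) (hT.map)
  apply h6
  obtain ⟨r, hr⟩ := h3
  refine ⟨r.natAbs, ?_⟩
  have h4 : ((∏ i ∈ T.map (Fin.succEmb n), x i : ℕ) : ℤ) = r * r := by
    rw [← hr, Finset.prod_map]
    push_cast
    rfl
  have h5 := congrArg Int.natAbs h4
  rw [Int.natAbs_mul, Int.natAbs_natCast] at h5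
  exact h5

/-- the embedding of the indices -/
def phi (m n : ℕ) : Fin m × Finset (Fin n) ↪ Fin m × Finset (Fin (n + 1)) :=
  ⟨fun a => (a.1, insert 0 (a.2.map (Fin.succEmb n))), by
    rintro ⟨i, T⟩ ⟨i', T'⟩ h
    simp only [Prod.mk.injEq] at h
    obtain ⟨h1, h2⟩ := h
    have h3 := congrArg (fun S : Finset (Fin (n + 1)) => S.erase 0) h2
    simp only [Finset.erase_insert (Z.F17.zero_notMem _)] at h3
    rw [h1, Finset.map_injective _ h3]⟩

lemma goods_eq {m : ℕ} {c : Fin m → ℤ} (hs : ∀ i, Squarefree (c i)) {n : ℕ} {x : Fin (n + 1) → ℕ}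
    (hx : ∀ j, 0 < x j) :
    Z.sat (Z.F17.T0 n) (Z.IsMin (fun i => Z.tw (c i) Z.C17.e17) x) = (goods c x).map (phi m n) := by
  classical
  have hprod : ∀ (i : Fin m) (T : Finset (Fin n)),
      c i * ∏ i ∈ insert 0 (T.map (Fin.succEmb n)), (x i : ℤ) =
      c i * x 0 * ∏ j ∈ T, (x j.succ : ℤ) := by
    intro i T
    rw [Finset.prod_insert (Z.F17.zero_notMem T), Finset.prod_map]
    rw [mul_assoc]
    rfl
  have hiff : ∀ (i : Fin m) (T : Finset (Fin n)),
      Z.IsMin (fun i => Z.tw (c i) Z.C17.e17) x i (insert 0 (T.map (Fin.succEmb n))) ↔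
      RankZeroShaTwo (c i * x 0 * ∏ j ∈ T, (x j.succ : ℤ)) := by
    intro i T
    rw [← hprod]
    exact Z.F17.rz_P (hs i).ne_zero
      (Finset.prod_ne_zero_iff.2 fun j _ => by exact_mod_cast (hx j).ne')
  ext ⟨i, S⟩
  rw [Finset.mem_map]
  unfold Z.sat goods
  rw [Finset.mem_filter, Finset.mem_product]
  constructor
  · rintro ⟨⟨-, h1⟩, h2⟩
    have h1' : S ∈ Z.F17.T0 n := h1
    unfold Z.F17.T0 at h1'
    rw [Finset.mem_image] at h1'
    obtain ⟨T, -, rfl⟩ := h1'
    exact ⟨(i, T), Finset.mem_filter.2 ⟨Finset.mem_univ _, (hiff i T).1 h2⟩, rfl⟩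
  · rintro ⟨⟨i', T⟩, h1, h2⟩
    obtain ⟨rfl, rfl⟩ : i' = i ∧ insert 0 (T.map (Fin.succEmb n)) = S := Prod.mk.injEq _ _ _ _ ▸ h2
    exact ⟨⟨Finset.mem_univ _, Finset.mem_image_of_mem _ (Finset.mem_univ T)⟩,
      (hiff _ T).2 (Finset.mem_filter.1 h1).2⟩

end proof

/-- **Main theorem.** Let `n ≥ 1` and let `c_1, …, c_m` be different squarefree integers such that the `E_{c_i}`
have root number `+1`.
(1) For almost all `f` (natural density one) the proportion of the pairs `(t, d)` of total conductor `f` for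
which ALL the `E_{c_i t}` are good over `ℚ(√d_1, …, √d_n)` differs from `κ ^ (m 2 ^ n)` by at most `δ`.
(2) For almost all `f` the proportion of the pairs `(t, d)` of total conductor `f` for which at least one of the
`E_{c_i t}` is good over `ℚ(√d_1, …, √d_n)` differs from `1 - (1 - κ ^ 2 ^ n) ^ m` by at most `δ`.
(3) If `E_{c_i t}` is good over `K = ℚ(√d_1, …, √d_n)` then `[K : ℚ] = 2 ^ n`, `E_{c_i t}(K)` is finite,
`L(E_{c_i t}/K, s)` is entire and not zero at `1`, and the 2-primary part of `Ш(E_{c_i t}/K)` is finite and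
killed by `2 ^ n`.
(4) Let `M = m 2 ^ n`. For every set `𝒥` of sets `J` of pairs `(i, T)`, for almost all `f` the proportion of the
pairs `(t, d)` of total conductor `f` for which the set of the `(i, T)` such that `E_{c_i t d_T}` has finitely many
rational points and no element of order two in `Ш` is in `𝒥` differs from
`∑_{J ∈ 𝒥} κ ^ #J (1 - κ) ^ (M - #J)` by at most `δ`.
(5) If `m > 0`, then for all `ε > 0` for almost all `f` the proportion of the pairs `(t, d)` of total conductor `f`
for which the number of these `(i, T)` differs from `κ M` by at most `ε M` is at least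
`1 - κ (1 - κ) / (ε ^ 2 M) - δ`. -/
theorem result (m n : ℕ) (hn : 1 ≤ n) (c : Fin m → ℤ) (hinj : Function.Injective c)
    (hs : ∀ i, Squarefree (c i)) (hr : ∀ i, RootPlus (c i)) :
    (∀ δ : ℝ, 0 < δ → AlmostAll (Conductor c)
      (Close c (fun x : Fin (n + 1) → ℕ => ∀ i, Good (fun j : Fin n => (x j.succ : ℤ)) (c i * x 0))
        (kappa ^ (m * 2 ^ n)) δ)) ∧
    (∀ δ : ℝ, 0 < δ → AlmostAll (Conductor c)
      (Close c (fun x : Fin (n + 1) → ℕ => ∃ i, Good (fun j : Fin n => (x j.succ : ℤ)) (c i * x 0))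
        (1 - (1 - kappa ^ 2 ^ n) ^ m) δ)) ∧
    (∀ f : ℕ, Conductor c f → ∀ x ∈ pairs c n f, ∀ i,
      Good (fun j : Fin n => (x j.succ : ℤ)) (c i * x 0) →
      ∀ (K : Type) [Field K] [NumberField K], IsMultiquadratic (fun j : Fin n => (x j.succ : ℤ)) K →
        Module.finrank ℚ K = 2 ^ n ∧ BSDZero K (c i * x 0) (∏ j : Fin n, (x j.succ : ℤ)) n) ∧
    (∀ 𝒥 : Finset (Finset (Fin m × Finset (Fin n))), ∀ δ : ℝ, 0 < δ →
      AlmostAll (Conductor c) (Close c (fun x : Fin (n + 1) → ℕ => goods c x ∈ 𝒥)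
        (∑ J ∈ 𝒥, kappa ^ J.card * (1 - kappa) ^ (m * 2 ^ n - J.card)) δ)) ∧
    (0 < m → ∀ ε δ : ℝ, 0 < ε → 0 < δ → AlmostAll (Conductor c) (AtLeast c
      (fun x : Fin (n + 1) → ℕ => |((goods c x).card : ℝ) - kappa * (m * 2 ^ n : ℕ)| ≤
        ε * (m * 2 ^ n : ℕ))
      (1 - kappa * (1 - kappa) / (ε ^ 2 * (m * 2 ^ n : ℕ))) δ)) ∧
    0.4194 < kappa ∧ kappa < 0.4195 := by
  classical
  have hT : ∀ T ∈ Pool.Agent.N869.GK.Z.F17.T0 n, T.Nonempty := fun T hT => by
    unfold Pool.Agent.N869.GK.Z.F17.T0 at hT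
    rw [Finset.mem_image] at hT
    obtain ⟨T', -, rfl⟩ := hT
    exact Finset.insert_nonempty _ _
  have hE := fun i => Pool.Agent.N869.GK.Z.C17.even_of (hs i) (hr i)
  have hA := fun (i j : Fin m) (hij : i ≠ j) => Pool.Agent.N869.GK.Z.C17.apart_of (hs i) (hs j)
    (hr i) (hr j) fun h => hij (hinj h)
  have hpos : ∀ f, Conductor c f → ∀ x ∈ pairs c n f, ∀ j, 0 < x j := fun f hf x hx j =>
    Nat.pos_of_ne_zero fun h => hf.1.ne_zero (zero_dvd_iff.1 (h ▸ (hx.1 j).1))
  refine ⟨fun δ hδ => ?_, fun δ hδ => ?_, fun f hf x hx i hg K _ _ hK => ?_, fun 𝒥 δ hδ => ?_,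
    fun hm ε δ hε hδ => ?_,
    Pool.Agent.N869.GK.Z.kappa_bd.1, Pool.Agent.N869.GK.Z.kappa_bd.2⟩
  · have key := Pool.Agent.N869.GK.Z.F17.pairs17 true (fun _ => hn) hinj hs hr hδ
    rw [← cond_eq] at key
    refine key.mono fun f hf h => ?_
    obtain ⟨h1, h2, h3⟩ := h
    rw [← pairs_eq] at h1 h2 h3
    exact ⟨h1, h2, h3⟩
  · have key := Pool.Agent.N869.GK.Z.F17.pairs17_one true (fun _ => hn) hinj hs hr hδ
    rw [← cond_eq] at key
    refine key.mono fun f hf h => ?_
    obtain ⟨h1, h2, h3⟩ := h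
    rw [← pairs_eq] at h1 h2 h3
    exact ⟨h1, h2, h3⟩
  · have h0 : (x 0 : ℤ) ≠ 0 := by
      have : x 0 ≠ 0 := fun h => hf.1.ne_zero (zero_dvd_iff.1 (h ▸ (hx.1 0).1))
      exact_mod_cast this
    exact Pool.Agent.Results.MP_1a91b9_nt.MultiquadraticX17.bsd (mul_ne_zero (hs i).ne_zero h0)
      (indep hx.2.1) hg K hK
  · have key := Pool.Agent.N869.GK.Z.law_pat' (Pool.Agent.N869.GK.Z.C17.NN_pos hs)
      (Pool.Agent.N869.GK.Z.C17.kane_c hs) hE hA true (n + 1) (fun _ => by omega) _ hT
      (𝒥.map ⟨fun J => J.map (phi m n), Finset.map_injective _⟩)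
      (fun J hJ a ha => by
        rw [Finset.mem_map] at hJ
        obtain ⟨J', -, rfl⟩ := hJ
        have ha' : a ∈ J'.map (phi m n) := ha
        rw [Finset.mem_map] at ha'
        obtain ⟨⟨i, T⟩, -, rfl⟩ := ha'
        exact Finset.mem_product.2 ⟨Finset.mem_univ _,
          Finset.mem_image_of_mem _ (Finset.mem_univ T)⟩) hδ
    unfold Pool.Agent.N869.GK.Z.wt at key
    rw [Pool.Agent.N869.GK.Z.F17.card_T0, Finset.sum_map, ← cond_eq] at key
    simp only [Function.Embedding.coeFn_mk, Finset.card_map] at key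
    refine key.mono fun f hf h => ?_
    obtain ⟨h1, h2, h3⟩ := h.congr (Q := fun x => goods c x ∈ 𝒥) fun x hx => by
      rw [← pairs_eq] at hx
      rw [goods_eq hs (hpos f hf x hx), Finset.mem_map]
      constructor
      · rintro ⟨J, hJ, h⟩
        have h' : J.map (phi m n) = (goods c x).map (phi m n) := h
        rw [← Finset.map_injective _ h']
        exact hJ
      · intro h
        exact ⟨goods c x, h, rfl⟩
    rw [← pairs_eq] at h1 h2 h3
    exact ⟨h1, h2, h3⟩
  · have hM : 0 < m * (Pool.Agent.N869.GK.Z.F17.T0 n).card := by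
      rw [Pool.Agent.N869.GK.Z.F17.card_T0]
      positivity
    have key := Pool.Agent.N869.GK.Z.law_num (Pool.Agent.N869.GK.Z.C17.NN_pos hs)
      (Pool.Agent.N869.GK.Z.C17.kane_c hs) hE hA true (n + 1) (fun _ => by omega) _ hT hM hε hδ
    rw [Pool.Agent.N869.GK.Z.F17.card_T0, ← cond_eq] at key
    refine key.mono fun f hf h => ?_
    obtain ⟨h1, h2, h3⟩ := h.mono (Q := fun x : Fin (n + 1) → ℕ =>
      |((goods c x).card : ℝ) - kappa * (m * 2 ^ n : ℕ)| ≤ ε * (m * 2 ^ n : ℕ))
      fun x hx h => by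
        rw [← pairs_eq] at hx
        rwa [goods_eq hs (hpos f hf x hx), Finset.card_map] at h
    rw [← pairs_eq] at h1 h2 h3
    exact ⟨h1, h2, h3⟩

end Pool.Agent.Results.MP_cd906c_nt.PairsX17
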